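import Mathlib

/-!
# Greedy colouring of degenerate graphs, and 2 by 2 matrix lemmas
-/

namespace Pool.Agent.Lib.MP_dcd76c_al

open Finset

/-- Greedy colouring: if every nonempty finite set of vertices contains a vertex with at most
`k` neighbours inside the set, and there are more than `k` colours, the graph is colourable. -/
theorem coloring_of_degenerate {V α : Type*} [Finite V] [Fintype α] (G : SimpleGraph V) (k : ℕ)
    (hk : k < Fintype.card α)
    (h : ∀ S : Finset V, S.Nonempty → ∃ x ∈ S, ∃ N : Finset V, N.card ≤ k ∧
      ∀ y ∈ S, G.Adj x y → y ∈ N) : Nonempty (G.Coloring α) := by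
  classical
  have key : ∀ n : ℕ, ∀ S : Finset V, S.card = n →
      ∃ c : V → α, ∀ x ∈ S, ∀ y ∈ S, G.Adj x y → c x ≠ c y := by
    intro n
    induction n with
    | zero =>
      intro S hS
      have hα : Nonempty α := Fintype.card_pos_iff.mp (by omega)
      refine ⟨fun _ => Classical.arbitrary α, ?_⟩
      rw [Finset.card_eq_zero] at hS
      subst hS
      simp
    | succ n ih =>
      intro S hS
      have hne : S.Nonempty := by
        rw [← Finset.card_pos]; omega
      obtain ⟨x, hxS, N, hN, hadj⟩ := h S hne
      obtain ⟨c, hc⟩ := ih (S.erase x) (by rw [Finset.card_erase_of_mem hxS]; omega)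
      obtain ⟨a, ha⟩ : ∃ a : α, a ∉ N.image c := by
        by_contra hcon
        push Not at hcon
        have h1 : (Finset.univ : Finset α) ⊆ N.image c := fun a _ => hcon a
        have h2 := Finset.card_le_card h1
        rw [Finset.card_univ] at h2
        have h3 := Finset.card_image_le (s := N) (f := c)
        omega
      refine ⟨Function.update c x a, ?_⟩
      intro y hy z hz hyz
      by_cases hyx : y = x
      · subst hyx
        have hzy : z ≠ y := hyz.ne'
        rw [Function.update_self, Function.update_of_ne hzy]
        intro hac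
        apply ha
        rw [Finset.mem_image]
        exact ⟨z, hadj z hz hyz, hac.symm⟩
      · by_cases hzx : z = x
        · subst hzx
          rw [Function.update_self, Function.update_of_ne hyx]
          intro hac
          apply ha
          rw [Finset.mem_image]
          exact ⟨y, hadj y hy hyz.symm, hac⟩
        · rw [Function.update_of_ne hyx, Function.update_of_ne hzx]
          exact hc y (Finset.mem_erase.mpr ⟨hyx, hy⟩) z (Finset.mem_erase.mpr ⟨hzx, hz⟩) hyz
  have : Fintype V := Fintype.ofFinite V
  obtain ⟨c, hc⟩ := key _ (Finset.univ : Finset V) rfl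
  exact ⟨SimpleGraph.Coloring.mk c fun {x y} hxy => hc x (mem_univ _) y (mem_univ _) hxy⟩

section Matrices

variable {K : Type*} [Field K]

/-- A matrix commuting with a non-scalar 2 by 2 matrix is a polynomial in it. -/
theorem commute_form {g h : Matrix (Fin 2) (Fin 2) K} (hc : g * h = h * g)
    (hg : ∀ a : K, g ≠ a • (1 : Matrix (Fin 2) (Fin 2) K)) :
    ∃ a b : K, h = a • (1 : Matrix (Fin 2) (Fin 2) K) + b • g := by
  have e00 := congrFun (congrFun hc 0) 0
  have e01 := congrFun (congrFun hc 0) 1
  have e10 := congrFun (congrFun hc 1) 0
  simp only [Matrix.mul_apply, Fin.sum_univ_two] at e00 e01 e10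
  by_cases h1 : g 0 1 = 0
  · by_cases h2 : g 1 0 = 0
    · have h3 : g 0 0 - g 1 1 ≠ 0 := by
        intro h3
        apply hg (g 0 0)
        ext i j
        fin_cases i <;> fin_cases j <;> simp [h1, h2]
        exact (sub_eq_zero.mp h3).symm
      refine ⟨h 0 0 - (h 0 0 - h 1 1) / (g 0 0 - g 1 1) * g 0 0,
        (h 0 0 - h 1 1) / (g 0 0 - g 1 1), ?_⟩
      have e01' : h 0 1 = 0 := by
        have : h 0 1 * (g 0 0 - g 1 1) = 0 := by
          rw [h1] at e01; linear_combination e01
        exact (mul_eq_zero.mp this).resolve_right h3
      have e10' : h 1 0 = 0 := by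
        have : h 1 0 * (g 0 0 - g 1 1) = 0 := by
          rw [h2] at e10; linear_combination -e10
        exact (mul_eq_zero.mp this).resolve_right h3
      ext i j
      fin_cases i <;> fin_cases j <;> simp [h1, h2, e01', e10']
      field_simp
      ring
    · refine ⟨h 0 0 - h 1 0 / g 1 0 * g 0 0, h 1 0 / g 1 0, ?_⟩
      ext i j
      fin_cases i <;> fin_cases j <;> simp
      · rw [h1] at e00 ⊢
        have : h 0 1 * g 1 0 = 0 := by linear_combination -e00
        have := (mul_eq_zero.mp this).resolve_right h2
        simp [this]
      · field_simp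
      · field_simp
        linear_combination -e10
  · refine ⟨h 0 0 - h 0 1 / g 0 1 * g 0 0, h 0 1 / g 0 1, ?_⟩
    ext i j
    fin_cases i <;> fin_cases j <;> simp
    · field_simp
    · field_simp
      linear_combination e00
    · field_simp
      linear_combination e01

end Matrices

end Pool.Agent.Lib.MP_dcd76c_al
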