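import Mathlib
import Pool.Agent.Lib.MP_dcd76c_al.Greedy

/-!
# A colouring of the commuting graph of PGL(2, p) with p colours
-/

namespace Pool.Agent.Lib.MP_dcd76c_al

open Finset Matrix

section General

variable {K : Type*} [Field K]

/-- The group PGL(2, K). -/
abbrev PGL2 (K : Type*) [Field K] : Type _ := Matrix.ProjGenLinGroup (Fin 2) K

/-- A representing matrix. -/
noncomputable def rep (x : PGL2 K) : GL (Fin 2) K := (ProjGenLinGroup.mk_surjective x).choose

theorem mk_rep (x : PGL2 K) : ProjGenLinGroup.mk (rep x) = x :=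
  (ProjGenLinGroup.mk_surjective x).choose_spec

open Classical in
/-- The class of a matrix in PGL(2, K), with value one on singular matrices. -/
noncomputable def cls (M : Matrix (Fin 2) (Fin 2) K) : PGL2 K :=
  if h : M.det ≠ 0 then ProjGenLinGroup.mk (GeneralLinearGroup.mkOfDetNeZero M h) else 1

theorem cls_coe (g : GL (Fin 2) K) : cls (g : Matrix (Fin 2) (Fin 2) K) = ProjGenLinGroup.mk g := by
  have h : (g : Matrix (Fin 2) (Fin 2) K).det ≠ 0 := g.det.ne_zero
  rw [cls, dif_pos h]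
  congr 1
  ext i j
  rfl

theorem det_rep_ne (x : PGL2 K) : (rep x : Matrix (Fin 2) (Fin 2) K).det ≠ 0 := (rep x).det.ne_zero

theorem cls_rep (x : PGL2 K) : cls (rep x : Matrix (Fin 2) (Fin 2) K) = x := by
  rw [cls_coe, mk_rep]

theorem mk_eq_iff (g h : GL (Fin 2) K) : (ProjGenLinGroup.mk g : PGL2 K) = ProjGenLinGroup.mk h ↔
    ∃ u : K, u ≠ 0 ∧ (g : Matrix (Fin 2) (Fin 2) K) = u • (h : Matrix (Fin 2) (Fin 2) K) := by
  rw [eq_comm, ProjGenLinGroup.mk_eq_mk_iff]
  constructor
  · rintro ⟨u, hu⟩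
    refine ⟨u, u.ne_zero, ?_⟩
    rw [← hu]
    ext i j
    fin_cases i <;> fin_cases j <;>
      simp [Matrix.mul_apply, Fin.sum_univ_two, GeneralLinearGroup.scalar, mul_comm]
  · rintro ⟨u, hu0, hu⟩
    refine ⟨Units.mk0 u hu0, ?_⟩
    ext i j
    rw [hu]
    fin_cases i <;> fin_cases j <;>
      simp [Matrix.mul_apply, Fin.sum_univ_two, GeneralLinearGroup.scalar, mul_comm]

theorem cls_smul (M : Matrix (Fin 2) (Fin 2) K) {b : K} (hb : b ≠ 0) : cls (b • M) = cls M := by
  by_cases h : M.det ≠ 0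
  · have h' : (b • M).det ≠ 0 := by
      rw [Matrix.det_smul]
      exact mul_ne_zero (pow_ne_zero _ hb) h
    rw [cls, cls, dif_pos h, dif_pos h', mk_eq_iff]
    exact ⟨b, hb, rfl⟩
  · have h' : ¬ (b • M).det ≠ 0 := by
      rw [Matrix.det_smul]
      push Not at h ⊢
      rw [h, mul_zero]
    rw [cls, cls, dif_neg h, dif_neg h']

theorem rep_not_scalar {x : PGL2 K} (hx : x ≠ 1) (a : K) :
    (rep x : Matrix (Fin 2) (Fin 2) K) ≠ a • (1 : Matrix (Fin 2) (Fin 2) K) := by
  intro h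
  have ha : a ≠ 0 := by
    rintro rfl
    apply det_rep_ne x
    rw [h]
    simp
  apply hx
  rw [← mk_rep x, ← map_one ProjGenLinGroup.mk, mk_eq_iff]
  exact ⟨a, ha, by rw [h]; rfl⟩

theorem comm_scalar {x y : PGL2 K} (h : x * y = y * x) :
    ∃ l : K, l ≠ 0 ∧ (rep x : Matrix (Fin 2) (Fin 2) K) * rep y
      = l • ((rep y : Matrix (Fin 2) (Fin 2) K) * rep x) := by
  rw [← mk_rep x, ← mk_rep y, ← map_mul, ← map_mul, mk_eq_iff] at h
  obtain ⟨u, hu, he⟩ := h
  exact ⟨u, hu, he⟩

theorem comm_sign {x y : PGL2 K} (h : x * y = y * x) :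
    (rep x : Matrix (Fin 2) (Fin 2) K) * rep y = (rep y : Matrix (Fin 2) (Fin 2) K) * rep x ∨
    (rep x : Matrix (Fin 2) (Fin 2) K) * rep y
      = -((rep y : Matrix (Fin 2) (Fin 2) K) * rep x) := by
  obtain ⟨l, hl, he⟩ := comm_scalar h
  have hd := congrArg Matrix.det he
  rw [Matrix.det_smul, Matrix.det_mul, Matrix.det_mul, Fintype.card_fin] at hd
  have hl2 : l ^ 2 = 1 := by
    have h1 := det_rep_ne x
    have h2 := det_rep_ne y
    have h3 : (l ^ 2 - 1) * ((rep x : Matrix (Fin 2) (Fin 2) K).det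
        * (rep y : Matrix (Fin 2) (Fin 2) K).det) = 0 := by linear_combination -hd
    rcases mul_eq_zero.mp h3 with h4 | h4
    · exact sub_eq_zero.mp h4
    · exact absurd h4 (mul_ne_zero h1 h2)
  have hl3 : l = 1 ∨ l = -1 := by
    have h1 : (l - 1) * (l + 1) = 0 := by linear_combination hl2
    rcases mul_eq_zero.mp h1 with h2 | h2
    · left; exact sub_eq_zero.mp h2
    · right; exact eq_neg_of_add_eq_zero_left h2
  rcases hl3 with rfl | rfl
  · left; rw [he, one_smul]
  · right; rw [he, neg_smul, one_smul]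

/-- The matrix `a + g`. -/
def shiftM (g : Matrix (Fin 2) (Fin 2) K) (a : K) : Matrix (Fin 2) (Fin 2) K :=
  a • (1 : Matrix (Fin 2) (Fin 2) K) + g

theorem anti_trace {g h : Matrix (Fin 2) (Fin 2) K} (h2 : (2 : K) ≠ 0) (hh : h.det ≠ 0)
    (ha : g * h = -(h * g)) : g.trace = 0 := by
  have hu : IsUnit h.det := isUnit_iff_ne_zero.mpr hh
  have h1 : g = -(h * g * h⁻¹) := by
    rw [← Matrix.neg_mul, ← ha, Matrix.mul_assoc, Matrix.mul_nonsing_inv _ hu, Matrix.mul_one]
  have h3 : (h * g * h⁻¹).trace = g.trace := by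
    rw [Matrix.trace_mul_comm, ← Matrix.mul_assoc, Matrix.nonsing_inv_mul _ hu, Matrix.one_mul]
  have h4 : g.trace = -g.trace := by
    conv_lhs => rw [h1]
    rw [Matrix.trace_neg, h3]
  have h5 : (2 : K) * g.trace = 0 := by linear_combination h4
  exact (mul_eq_zero.mp h5).resolve_left h2

/-- Structure of commuting pairs in PGL(2, K). -/
theorem comm_cases {x y : PGL2 K} (hx : x ≠ 1) (hy : y ≠ 1) (hxy : x ≠ y) (h : x * y = y * x) :
    (∃ a : K, a ≠ 0 ∧ y = cls (shiftM (rep x) a) ∧ ∃ b : K, b ≠ 0 ∧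
        (rep y : Matrix (Fin 2) (Fin 2) K) = b • shiftM (rep x) a) ∨
    (rep x : Matrix (Fin 2) (Fin 2) K) * rep y
      = -((rep y : Matrix (Fin 2) (Fin 2) K) * rep x) := by
  rcases comm_sign h with h1 | h1
  · left
    obtain ⟨a, b, hab⟩ := commute_form h1 (rep_not_scalar hx)
    have hb : b ≠ 0 := by
      rintro rfl
      apply rep_not_scalar hy a
      rw [hab]; simp
    have he : (rep y : Matrix (Fin 2) (Fin 2) K) = b • shiftM (rep x) (a / b) := by
      rw [hab, shiftM, smul_add, smul_smul, mul_div_cancel₀ _ hb]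
    have hcl : y = cls (shiftM (rep x) (a / b)) := by
      rw [← cls_rep y, he, cls_smul _ hb]
    refine ⟨a / b, ?_, hcl, b, hb, he⟩
    intro h0
    apply hxy
    rw [hcl, h0, shiftM, zero_smul, zero_add, cls_rep]
  · right; exact h1

theorem comm_anti {x y : PGL2 K} (h2 : (2 : K) ≠ 0) (hx : x ≠ 1) (hy : y ≠ 1) (hxy : x ≠ y)
    (h : x * y = y * x) (tx : (rep x : Matrix (Fin 2) (Fin 2) K).trace = 0)
    (ty : (rep y : Matrix (Fin 2) (Fin 2) K).trace = 0) :
    (rep x : Matrix (Fin 2) (Fin 2) K) * rep y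
      = -((rep y : Matrix (Fin 2) (Fin 2) K) * rep x) := by
  rcases comm_cases hx hy hxy h with ⟨a, ha, _, b, hb, he⟩ | h1
  · exfalso
    rw [he, Matrix.trace_smul, shiftM, Matrix.trace_add, Matrix.trace_smul, tx, add_zero,
      Matrix.trace_one, Fintype.card_fin, smul_eq_mul, smul_eq_mul] at ty
    push_cast at ty
    exact mul_ne_zero hb (mul_ne_zero ha h2) ty
  · exact h1

/-- Two elements anticommuting with `x` differ by an element commuting with `x`. -/
theorem anti_pair {x y z : PGL2 K} (hx : x ≠ 1)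
    (hy : (rep x : Matrix (Fin 2) (Fin 2) K) * rep y
      = -((rep y : Matrix (Fin 2) (Fin 2) K) * rep x))
    (hz : (rep x : Matrix (Fin 2) (Fin 2) K) * rep z
      = -((rep z : Matrix (Fin 2) (Fin 2) K) * rep x)) :
    z = y ∨ ∃ a b : K, b ≠ 0 ∧
      z = cls ((rep y : Matrix (Fin 2) (Fin 2) K) * shiftM (rep x) a) ∧
      (rep z : Matrix (Fin 2) (Fin 2) K)
        = b • ((rep y : Matrix (Fin 2) (Fin 2) K) * shiftM (rep x) a) := by
  set g : Matrix (Fin 2) (Fin 2) K := (rep x : Matrix (Fin 2) (Fin 2) K) with hgdef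
  set u : Matrix (Fin 2) (Fin 2) K := (rep y : Matrix (Fin 2) (Fin 2) K) with hudef
  set v : Matrix (Fin 2) (Fin 2) K := (rep z : Matrix (Fin 2) (Fin 2) K) with hvdef
  have hu : IsUnit u.det := isUnit_iff_ne_zero.mpr (det_rep_ne y)
  have huv : u * (u⁻¹ * v) = v := by
    rw [← Matrix.mul_assoc, Matrix.mul_nonsing_inv _ hu, Matrix.one_mul]
  have hcomm : g * (u⁻¹ * v) = (u⁻¹ * v) * g := by
    have h1 : u * (g * (u⁻¹ * v)) = u * ((u⁻¹ * v) * g) := by
      have h3 : u * g = -(g * u) := by rw [hy, neg_neg]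
      have h4 : v * g = -(g * v) := by rw [hz, neg_neg]
      calc u * (g * (u⁻¹ * v)) = (u * g) * (u⁻¹ * v) := by rw [Matrix.mul_assoc]
        _ = -(g * (u * (u⁻¹ * v))) := by rw [h3, Matrix.neg_mul, Matrix.mul_assoc]
        _ = -(g * v) := by rw [huv]
        _ = v * g := h4.symm
        _ = (u * (u⁻¹ * v)) * g := by rw [huv]
        _ = u * ((u⁻¹ * v) * g) := by rw [Matrix.mul_assoc]
    have h5 : u⁻¹ * (u * (g * (u⁻¹ * v))) = u⁻¹ * (u * ((u⁻¹ * v) * g)) := by rw [h1]
    rw [← Matrix.mul_assoc u⁻¹ u, Matrix.nonsing_inv_mul _ hu, Matrix.one_mul,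
      ← Matrix.mul_assoc u⁻¹ u, Matrix.nonsing_inv_mul _ hu, Matrix.one_mul] at h5
    exact h5
  obtain ⟨a, b, hab⟩ := commute_form hcomm (rep_not_scalar hx)
  have hv : v = u * (a • (1 : Matrix (Fin 2) (Fin 2) K) + b • g) := by rw [← hab, huv]
  by_cases hb : b = 0
  · left
    rw [hb, zero_smul, add_zero, Matrix.mul_smul, Matrix.mul_one] at hv
    have ha : a ≠ 0 := by
      rintro rfl
      apply det_rep_ne z
      rw [← hvdef, hv]; simp
    rw [← cls_rep z, ← hvdef, hv, cls_smul _ ha, hudef, cls_rep]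
  · right
    have he : v = b • (u * shiftM g (a / b)) := by
      rw [hv, shiftM, ← Matrix.mul_smul, smul_add, smul_smul, mul_div_cancel₀ _ hb]
    refine ⟨a / b, b, hb, ?_, he⟩
    rw [← cls_rep z, ← hvdef, he, cls_smul _ hb]

theorem det_shiftM {g : Matrix (Fin 2) (Fin 2) K} (hg : g.trace = 0) (a : K) :
    (shiftM g a).det = a ^ 2 + g.det := by
  rw [Matrix.trace_fin_two] at hg
  simp only [shiftM, Matrix.det_fin_two, Matrix.add_apply, Matrix.smul_apply, Matrix.one_apply,
    smul_eq_mul]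
  simp
  linear_combination a * hg

end General

section Prime

variable {p : ℕ} [hp : Fact p.Prime]

theorem exists_nonsquare_shift {s : ZMod p} (hs : ¬ IsSquare s) :
    ∃ a : ZMod p, a ≠ 0 ∧ ¬ IsSquare (a ^ 2 - s) := by
  by_contra hcon
  push Not at hcon
  have hs0 : s ≠ 0 := by
    rintro rfl
    exact hs ⟨0, by simp⟩
  have key : ∀ k : ℕ, IsSquare (1 - (k : ZMod p) * s) ∧ (1 - (k : ZMod p) * s) ≠ 0 := by
    intro k
    induction k with
    | zero => simp
    | succ k ih =>
      obtain ⟨⟨a, ha⟩, hne⟩ := ih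
      have ha0 : a ≠ 0 := by
        rintro rfl
        apply hne
        rw [ha]; simp
      have h1 := hcon a ha0
      have h2 : (1 : ZMod p) - ((k + 1 : ℕ) : ZMod p) * s = a ^ 2 - s := by
        push_cast
        linear_combination ha
      rw [h2]
      refine ⟨h1, fun h3 => hs ⟨a, ?_⟩⟩
      linear_combination -h3
  obtain ⟨k, hk⟩ := ZMod.natCast_zmod_surjective (s⁻¹)
  have := (key k).2
  rw [hk, inv_mul_cancel₀ hs0, sub_self] at this
  exact this rfl

theorem isSquare_mul_of_not {a b : ZMod p} (ha : ¬ IsSquare a) (hb : ¬ IsSquare b) :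
    IsSquare (a * b) := by
  have hab : a * b ≠ 0 := by
    apply mul_ne_zero
    · rintro rfl; exact ha ⟨0, by simp⟩
    · rintro rfl; exact hb ⟨0, by simp⟩
  rw [← quadraticChar_one_iff_isSquare hab, map_mul,
    quadraticChar_neg_one_iff_not_isSquare.mpr ha,
    quadraticChar_neg_one_iff_not_isSquare.mpr hb]
  norm_num

/-- The commuting graph of the non-identity elements of PGL(2, p), on the whole group. -/
def pglGraph (p : ℕ) [Fact p.Prime] : SimpleGraph (PGL2 (ZMod p)) where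
  Adj x y := x ≠ 1 ∧ y ≠ 1 ∧ x ≠ y ∧ x * y = y * x
  symm := ⟨fun _ _ h => ⟨h.2.1, h.1, h.2.2.1.symm, h.2.2.2.symm⟩⟩
  loopless := ⟨fun _ h => h.2.2.1 rfl⟩

instance : Finite (PGL2 (ZMod p)) :=
  Finite.of_surjective _ (ProjGenLinGroup.mk_surjective (n := Fin 2) (R := ZMod p))

theorem pgl_coloring (hp2 : p ≠ 2) : Nonempty ((pglGraph p).Coloring (ZMod p)) := by
  classical
  have hp1 : 2 ≤ p := hp.out.two_le
  have h2 : (2 : ZMod p) ≠ 0 := by
    intro h
    have h3 : ((2 : ℕ) : ZMod p) = 0 := by exact_mod_cast h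
    rw [ZMod.natCast_eq_zero_iff] at h3
    have := Nat.le_of_dvd (by norm_num) h3
    omega
  have hcard : Fintype.card (ZMod p) = p := ZMod.card p
  apply coloring_of_degenerate (pglGraph p) (p - 1) (by rw [hcard]; omega)
  intro S hS
  by_cases h1 : (1 : PGL2 (ZMod p)) ∈ S
  · exact ⟨1, h1, ∅, by simp, fun y _ hy => absurd rfl hy.1⟩
  have hS1 : ∀ x ∈ S, x ≠ 1 := fun x hx h => h1 (h ▸ hx)
  by_cases htr : ∃ x ∈ S, (rep x : Matrix (Fin 2) (Fin 2) (ZMod p)).trace ≠ 0
  · obtain ⟨x, hxS, hx⟩ := htr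
    refine ⟨x, hxS, (univ.erase (0 : ZMod p)).image fun a => cls (shiftM (rep x) a), ?_, ?_⟩
    · refine le_trans Finset.card_image_le ?_
      rw [Finset.card_erase_of_mem (mem_univ _), Finset.card_univ, hcard]
    · intro y hyS hxy
      rcases comm_cases hxy.1 hxy.2.1 hxy.2.2.1 hxy.2.2.2 with ⟨a, ha, he, _⟩ | h3
      · rw [Finset.mem_image]
        exact ⟨a, by simp [ha], he.symm⟩
      · exact absurd (anti_trace h2 (det_rep_ne y) h3) hx
  push Not at htr
  -- all elements of S have trace zero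
  have hanti : ∀ x ∈ S, ∀ y ∈ S, (pglGraph p).Adj x y →
      (rep x : Matrix (Fin 2) (Fin 2) (ZMod p)) * rep y
      = -((rep y : Matrix (Fin 2) (Fin 2) (ZMod p)) * rep x) := fun x hx y hy hxy =>
    comm_anti h2 hxy.1 hxy.2.1 hxy.2.2.1 hxy.2.2.2 (htr x hx) (htr y hy)
  -- general counting statement
  have count : ∀ x ∈ S, (∃ a₀ : ZMod p, a₀ ≠ 0 ∧ ∀ y ∈ S, (pglGraph p).Adj x y → ∀ z ∈ S,
      (pglGraph p).Adj x z → ∀ a b : ZMod p, b ≠ 0 →
      (rep z : Matrix (Fin 2) (Fin 2) (ZMod p))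
        = b • ((rep y : Matrix (Fin 2) (Fin 2) (ZMod p)) * shiftM (rep x) a) →
      a ≠ a₀ ∧ a ≠ -a₀) →
      ∃ x ∈ S, ∃ N : Finset (PGL2 (ZMod p)), N.card ≤ p - 1 ∧
        ∀ y ∈ S, (pglGraph p).Adj x y → y ∈ N := by
    rintro x hx ⟨a₀, ha₀, hex⟩
    by_cases hnb : ∃ y ∈ S, (pglGraph p).Adj x y
    · obtain ⟨y, hy, hxy⟩ := hnb
      refine ⟨x, hx, insert y (((univ.erase a₀).erase (-a₀)).image fun a =>
        cls ((rep y : Matrix (Fin 2) (Fin 2) (ZMod p)) * shiftM (rep x) a)), ?_, ?_⟩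
      · refine le_trans (Finset.card_insert_le _ _) ?_
        have h3 : ((univ.erase a₀).erase (-a₀) : Finset (ZMod p)).card = p - 2 := by
          have hne : -a₀ ≠ a₀ := by
            intro h
            apply ha₀
            have h4 : (2 : ZMod p) * a₀ = 0 := by linear_combination -h
            exact (mul_eq_zero.mp h4).resolve_left h2
          rw [Finset.card_erase_of_mem (by simp [hne]), Finset.card_erase_of_mem (mem_univ _),
            Finset.card_univ, hcard]
          omega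
        have h4 := Finset.card_image_le (s := ((univ.erase a₀).erase (-a₀) : Finset (ZMod p)))
          (f := fun a => cls ((rep y : Matrix (Fin 2) (Fin 2) (ZMod p)) * shiftM (rep x) a))
        have h5 : 3 ≤ p := by
          rcases Nat.lt_or_ge p 3 with h | h
          · omega
          · exact h
        omega
      · intro z hz hxz
        rcases anti_pair (hS1 x hx) (hanti x hx y hy hxy) (hanti x hx z hz hxz) with h3 | h3
        · rw [h3]; exact Finset.mem_insert_self _ _
        · obtain ⟨a, b, hb, he, hm⟩ := h3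
          apply Finset.mem_insert_of_mem
          rw [Finset.mem_image]
          obtain ⟨h4, h5⟩ := hex y hy hxy z hz hxz a b hb hm
          exact ⟨a, by simp [h4, h5], he.symm⟩
    · push Not at hnb
      exact ⟨x, hx, ∅, by simp, fun y hy hxy => absurd hxy (hnb y hy)⟩
  by_cases hsq : ∃ x ∈ S, IsSquare (-(rep x : Matrix (Fin 2) (Fin 2) (ZMod p)).det)
  · obtain ⟨x, hx, u, hu⟩ := hsq
    apply count x hx
    have hd := det_rep_ne x
    refine ⟨u, ?_, ?_⟩
    · rintro rfl
      apply hd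
      rw [mul_zero] at hu
      exact neg_eq_zero.mp hu
    · intro y hy hxy z hz hxz a b hb hm
      have hz0 := det_rep_ne z
      rw [hm, Matrix.det_smul, Matrix.det_mul, det_shiftM (htr x hx)] at hz0
      constructor
      · rintro rfl
        apply hz0
        have : a ^ 2 + (rep x : Matrix (Fin 2) (Fin 2) (ZMod p)).det = 0 := by
          linear_combination -hu
        rw [this]; simp
      · rintro rfl
        apply hz0
        have : (-u) ^ 2 + (rep x : Matrix (Fin 2) (Fin 2) (ZMod p)).det = 0 := by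
          linear_combination -hu
        rw [this]; simp
  · push Not at hsq
    obtain ⟨x, hx⟩ := hS
    apply count x hx
    obtain ⟨a₀, ha₀, hns⟩ := exists_nonsquare_shift (hsq x hx)
    rw [sub_neg_eq_add] at hns
    refine ⟨a₀, ha₀, ?_⟩
    intro y hy hxy z hz hxz a b hb hm
    have hzs := hsq z hz
    rw [hm, Matrix.det_smul, Matrix.det_mul, det_shiftM (htr x hx), Fintype.card_fin] at hzs
    have hbad : ∀ c : ZMod p, c = a₀ ∨ c = -a₀ → a = c → False := by
      intro c hc hac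
      apply hzs
      have h3 : ¬ IsSquare (a ^ 2 + (rep x : Matrix (Fin 2) (Fin 2) (ZMod p)).det) := by
        rcases hc with hc | hc
        · rw [hac, hc]; exact hns
        · rw [hac, hc, neg_sq]; exact hns
      obtain ⟨w, hw⟩ := isSquare_mul_of_not (hsq y hy) h3
      refine ⟨b * w, ?_⟩
      linear_combination b ^ 2 * hw
    exact ⟨fun h => hbad a₀ (Or.inl rfl) h, fun h => hbad (-a₀) (Or.inr rfl) h⟩

end Prime

end Pool.Agent.Lib.MP_dcd76c_al
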