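import Mathlib
import Pool.Agent.Lib.MP_dcd76c_al.Def
import Pool.Agent.Lib.MP_dcd76c_al.PGLColor

/-!
# Clique and chromatic numbers of the commuting graph of PGL(2, p) x C_m
-/

namespace Pool.Agent.Lib.MP_dcd76c_al

open Finset Matrix

section

variable {K : Type*} [Field K]

theorem cls_mul {A B : Matrix (Fin 2) (Fin 2) K} (hA : A.det ≠ 0) (hB : B.det ≠ 0) :
    cls A * cls B = cls (A * B) := by
  have hAB : (A * B).det ≠ 0 := by rw [Matrix.det_mul]; exact mul_ne_zero hA hB
  rw [cls, cls, cls, dif_pos hA, dif_pos hB, dif_pos hAB, ← map_mul]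
  congr 1
  ext i j
  rfl

theorem cls_eq_iff {A B : Matrix (Fin 2) (Fin 2) K} (hA : A.det ≠ 0) (hB : B.det ≠ 0) :
    cls A = cls B ↔ ∃ u : K, u ≠ 0 ∧ A = u • B := by
  rw [cls, cls, dif_pos hA, dif_pos hB, mk_eq_iff]
  rfl

/-- The elements of the non-split torus. -/
def tor (n t : K) : Matrix (Fin 2) (Fin 2) K := !![t, n; 1, t]

theorem det_tor {n : K} (hn : ¬ IsSquare n) (t : K) : (tor n t).det ≠ 0 := by
  rw [tor, Matrix.det_fin_two_of]
  intro h
  exact hn ⟨t, by linear_combination -h⟩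

theorem tor_comm {n : K} (hn : ¬ IsSquare n) (t t' : K) :
    cls (tor n t) * cls (tor n t') = cls (tor n t') * cls (tor n t) := by
  rw [cls_mul (det_tor hn t) (det_tor hn t'), cls_mul (det_tor hn t') (det_tor hn t)]
  congr 1
  ext i j
  fin_cases i <;> fin_cases j <;> simp [tor, Matrix.mul_apply, Fin.sum_univ_two] <;> ring

theorem tor_inj {n : K} (hn : ¬ IsSquare n) {t t' : K} (h : cls (tor n t) = cls (tor n t')) :
    t = t' := by
  rw [cls_eq_iff (det_tor hn t) (det_tor hn t')] at h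
  obtain ⟨u, _, he⟩ := h
  have h1 := congrFun (congrFun he 1) 0
  have h2 := congrFun (congrFun he 0) 0
  simp [tor] at h1 h2
  rw [h2, ← h1, one_mul]

theorem tor_not_comm {n : K} (hn : ¬ IsSquare n) (t : K) :
    ∃ z : PGL2 K, z * cls (tor n t) ≠ cls (tor n t) * z := by
  have hU : (!![1, 1; 0, 1] : Matrix (Fin 2) (Fin 2) K).det ≠ 0 := by
    rw [Matrix.det_fin_two_of]; simp
  refine ⟨cls !![1, 1; 0, 1], fun h => ?_⟩
  rw [cls_mul (det_tor hn t) hU, cls_mul hU (det_tor hn t), cls_eq_iff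
    (by rw [Matrix.det_mul]; exact mul_ne_zero hU (det_tor hn t))
    (by rw [Matrix.det_mul]; exact mul_ne_zero (det_tor hn t) hU)] at h
  obtain ⟨u, _, he⟩ := h
  have h1 := congrFun (congrFun he 1) 0
  have h2 := congrFun (congrFun he 0) 0
  simp [tor, Matrix.mul_apply, Fin.sum_univ_two] at h1 h2
  rw [← h1, one_mul] at h2
  have : (1 : K) = 0 := by linear_combination h2
  exact one_ne_zero this

end

section Main

variable (p m : ℕ) [hp : Fact p.Prime] [NeZero m]

/-- The group PGL(2, p) x C_m. -/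
abbrev GG : Type := PGL2 (ZMod p) × Multiplicative (ZMod m)

omit [NeZero m] in
theorem mem_center_of_fst_eq_one {x : GG p m} (h : x.1 = 1) : x ∈ Subgroup.center (GG p m) := by
  rw [Subgroup.mem_center_iff]
  intro g
  ext
  · simp [h]
  · simp [mul_comm]

instance : Finite (Multiplicative (ZMod m)) :=
  inferInstanceAs (Finite (ZMod m))

instance : Finite (GG p m) := inferInstance

theorem colorable_GG (hp2 : p ≠ 2) : (commutingGraph (GG p m)).Colorable (p * m) := by
  classical
  obtain ⟨c⟩ := pgl_coloring (p := p) hp2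
  let C : (commutingGraph (GG p m)).Coloring (ZMod p × ZMod m) :=
    SimpleGraph.Coloring.mk (fun x => (c x.1.1, Multiplicative.toAdd x.1.2)) (by
      intro x y hxy heq
      rw [Prod.mk.injEq] at heq
      obtain ⟨hne, hcomm⟩ := hxy
      have hx1 : x.1.1 ≠ 1 := fun h => x.2 (mem_center_of_fst_eq_one p m h)
      have hy1 : y.1.1 ≠ 1 := fun h => y.2 (mem_center_of_fst_eq_one p m h)
      have hsnd : x.1.2 = y.1.2 := Multiplicative.toAdd.injective heq.2
      have hfst : x.1.1 ≠ y.1.1 := fun h => hne (Subtype.ext (Prod.ext h hsnd))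
      have hc1 : x.1.1 * y.1.1 = y.1.1 * x.1.1 := congrArg Prod.fst hcomm
      exact c.valid (show (pglGraph p).Adj x.1.1 y.1.1 from ⟨hx1, hy1, hfst, hc1⟩) heq.1)
  have h := C.colorable
  rwa [Fintype.card_prod, ZMod.card, ZMod.card] at h

theorem le_cliqueNum_GG (hp2 : p ≠ 2) : p * m ≤ (commutingGraph (GG p m)).cliqueNum := by
  classical
  obtain ⟨n, hn⟩ := FiniteField.exists_nonsquare (F := ZMod p)
    (by rw [ZMod.ringChar_zmod_n p]; exact hp2)
  have hnc : ∀ tc : ZMod p × ZMod m,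
      ((cls (tor n tc.1), Multiplicative.ofAdd tc.2) : GG p m) ∉ Subgroup.center (GG p m) := by
    intro tc h
    obtain ⟨z, hz⟩ := tor_not_comm hn tc.1
    rw [Subgroup.mem_center_iff] at h
    exact hz (congrArg Prod.fst (h (z, 1)))
  let f : ZMod p × ZMod m → {x : GG p m // x ∉ Subgroup.center (GG p m)} := fun tc =>
    ⟨(cls (tor n tc.1), Multiplicative.ofAdd tc.2), hnc tc⟩
  have hf : Function.Injective f := by
    intro a b hab
    have h1 : ((cls (tor n a.1), Multiplicative.ofAdd a.2) : GG p m)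
        = (cls (tor n b.1), Multiplicative.ofAdd b.2) := congrArg Subtype.val hab
    rw [Prod.mk.injEq] at h1
    exact Prod.ext (tor_inj hn h1.1) (Multiplicative.ofAdd.injective h1.2)
  have hcl : (commutingGraph (GG p m)).IsClique
      ((Finset.univ.map ⟨f, hf⟩ : Finset _) : Set {x : GG p m // x ∉ Subgroup.center (GG p m)}) := by
    intro x hx y hy hxy
    simp only [Finset.coe_map, Function.Embedding.coeFn_mk, Finset.coe_univ, Set.image_univ,
      Set.mem_range] at hx hy
    obtain ⟨a, rfl⟩ := hx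
    obtain ⟨b, rfl⟩ := hy
    refine ⟨hxy, ?_⟩
    exact Prod.ext (tor_comm hn a.1 b.1) (mul_comm _ _)
  have h := hcl.card_le_cliqueNum
  rwa [Finset.card_map, Finset.card_univ, Fintype.card_prod, ZMod.card, ZMod.card] at h

omit [NeZero m] in
theorem not_comm_GG (hp2 : p ≠ 2) : ¬ ∀ a b : GG p m, a * b = b * a := by
  obtain ⟨n, hn⟩ := FiniteField.exists_nonsquare (F := ZMod p)
    (by rw [ZMod.ringChar_zmod_n p]; exact hp2)
  obtain ⟨z, hz⟩ := tor_not_comm hn 0
  intro h
  exact hz (congrArg Prod.fst (h (z, 1) (cls (tor n 0), 1)))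

theorem chromaticNumber_GG (hp2 : p ≠ 2) :
    (commutingGraph (GG p m)).chromaticNumber = ((p * m : ℕ) : ℕ∞) := by
  apply le_antisymm (colorable_GG p m hp2).chromaticNumber_le
  refine le_trans ?_ SimpleGraph.cliqueNum_le_chromaticNumber
  exact_mod_cast le_cliqueNum_GG p m hp2

theorem cliqueNum_GG (hp2 : p ≠ 2) : (commutingGraph (GG p m)).cliqueNum = p * m := by
  apply le_antisymm _ (le_cliqueNum_GG p m hp2)
  have h := (SimpleGraph.cliqueNum_le_chromaticNumber (G := commutingGraph (GG p m))).trans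
    (colorable_GG p m hp2).chromaticNumber_le
  exact_mod_cast h

end Main

/-- Every odd number at least three is `p * m` for an odd prime `p`. -/
theorem exists_prime_factor {n : ℕ} (hn : 0 < n) :
    ∃ p m : ℕ, p.Prime ∧ p ≠ 2 ∧ m ≠ 0 ∧ 2 * n + 1 = p * m := by
  obtain ⟨p, hp, m, hm⟩ := Nat.exists_prime_and_dvd (show 2 * n + 1 ≠ 1 by omega)
  refine ⟨p, m, hp, ?_, ?_, hm⟩
  · rintro rfl
    omega
  · rintro rfl
    omega

end Pool.Agent.Lib.MP_dcd76c_al
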